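import Pool.Agent.Helper66.SB.Goals

/-!
# Packet SB-GEN (MP_d3128a_ag): several spaces and several points of the curve
-/

set_option autoImplicit false

open Module MvPolynomial

noncomputable section

namespace Pool.Agent.Helper77.SB

open Pool.Agent.Helper66.SB Helper18.Shgh

theorem gen_step (F : R2) (R : Fin 2 → ℂ) (U : Submodule ℂ R2) [FiniteDimensional ℂ U]
    (hU : ∀ v ∈ U, v ∈ OC F R (finrank ℂ U) → v = 0) (e : ℕ) :
    finrank ℂ ↥(U ⊓ OC F R e) ≤ finrank ℂ U - e := by
  let f : ↥(U ⊓ OC F R e) →ₗ[ℂ] (Fin (finrank ℂ U - e) → ℂ) :=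
    { toFun := fun v j => eval R (dn F (e + j) (v : R2))
      map_add' := by
        intro a b
        funext j
        simp only [Submodule.coe_add, map_add, Pi.add_apply]
      map_smul' := by
        intro c a
        funext j
        simp only [Submodule.coe_smul, map_smul, smul_eval, Pi.smul_apply, smul_eq_mul,
          RingHom.id_apply] }
  have hf : Function.Injective f := by
    rw [injective_iff_map_eq_zero]
    rintro ⟨v, hv⟩ h
    have h1 : v = 0 := by
      refine hU v hv.1 ?_
      rw [mem_OC]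
      intro j hj
      by_cases hje : j < e
      · exact hv.2 j hje
      · have h2 := congrFun h ⟨j - e, by omega⟩
        have h3 : e + (j - e) = j := by omega
        simp only [f, LinearMap.coe_mk, AddHom.coe_mk, h3] at h2
        exact h2
    exact Subtype.ext h1
  have h := LinearMap.finrank_le_finrank_of_injective hf
  rwa [Module.finrank_fin_fun] at h

/-- GEN -/
theorem gGEN (hWR : G_WR) (hPT : G_PT) : G_GEN := by
  intro F hF hFy A u
  induction u with
  | zero =>
    intro U _ _ e
    refine ⟨fun l => l.elim0, fun l => l.elim0, fun i => ?_⟩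
    rw [iInf_of_empty, inf_top_eq, Finset.univ_eq_empty, Finset.sum_empty, Nat.sub_zero]
  | succ u ih =>
    intro U hfd hU e
    choose W hW1 hW2 using fun i => hWR F hF hFy (U i) (hfd i) (hU i)
    have hp : Prime F := hF.prime
    have hprod : ¬ F ∣ pderiv 1 F * ∏ i, W i := by
      intro h
      rcases hp.dvd_or_dvd h with h1 | h1
      · exact hFy h1
      · obtain ⟨i, -, hi⟩ := (hp.dvd_finsetProd_iff _).1 h1
        exact hW1 i hi
    obtain ⟨R1, hR1, hR2⟩ := hPT F _ hF hprod
    rw [map_mul, map_prod, mul_ne_zero_iff] at hR2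
    have hR3 : ∀ i, eval R1 (W i) ≠ 0 := fun i =>
      (Finset.prod_ne_zero_iff.1 hR2.2) i (Finset.mem_univ i)
    have hfd' : ∀ i, FiniteDimensional ℂ ↥(U i ⊓ OC F R1 (e i 0)) := fun i =>
      Submodule.finiteDimensional_of_le (S₂ := U i) inf_le_left
    obtain ⟨R', hR'1, hR'2⟩ := ih (fun i => U i ⊓ OC F R1 (e i 0)) hfd'
      (fun i v hv => hU i v hv.1) (fun i l => e i l.succ)
    refine ⟨Fin.cons R1 R', ?_, ?_⟩
    · intro l
      refine Fin.cases ?_ (fun l => ?_) l
      · exact ⟨hR1, hR2.1⟩
      · exact hR'1 l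
    · intro i
      have := hfd i
      have := hfd' i
      have h1 := gen_step F R1 (U i) (fun v hv h => hW2 i R1 hR1 (hR3 i) v hv h) (e i 0)
      have h2 := hR'2 i
      have hle : U i ⊓ ⨅ l, OC F ((Fin.cons R1 R' : Fin (u + 1) → Fin 2 → ℂ) l) (e i l) ≤
          (U i ⊓ OC F R1 (e i 0)) ⊓ ⨅ l, OC F (R' l) (e i l.succ) := by
        rintro v ⟨hv1, hv2⟩
        rw [SetLike.mem_coe, Submodule.mem_iInf] at hv2
        refine ⟨⟨hv1, hv2 0⟩, ?_⟩
        rw [SetLike.mem_coe, Submodule.mem_iInf]
        intro l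
        exact hv2 l.succ
      have : FiniteDimensional ℂ ↥((U i ⊓ OC F R1 (e i 0)) ⊓ ⨅ l, OC F (R' l) (e i l.succ)) :=
        Submodule.finiteDimensional_of_le (S₂ := U i ⊓ OC F R1 (e i 0)) inf_le_left
      have h3 := Submodule.finrank_mono hle
      rw [Fin.sum_univ_succ]
      omega

end Pool.Agent.Helper77.SB
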